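import Pool.Agent.Q121.ND.Basic

/-!
# Project ND: the vectors killed by the skew endomorphisms which kill `v`
-/

set_option autoImplicit false
set_option linter.all false

open Module

namespace Q121.ND.Ann

open Pool.Agent.Q45.OI (InSo)

theorem main : Pool.Agent.Q45.ND.Ann := by
  classical
  intro Ω _ _ hodd h7 M _ _ _ _ κ hsurj hker B hs hdot
  have hprim : ∀ b : M, (¬ ∃ c, b = (2 : ℤ_[2]) • c) → ∃ i, κ b i = 1 := by
    intro b hb
    have h1 : κ b ≠ 0 := fun h => hb ((hker b).1 h)
    obtain ⟨i, hi⟩ := Function.ne_iff.1 h1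
    exact ⟨i, (zmod2 _).resolve_left hi⟩
  have hsing : ∀ i : Ω, ∃ x : M, κ x = Pi.single i 1 := fun i => hsurj _
  have hB1 : ∀ (i : Ω) (x b : M), κ x = Pi.single i 1 → PadicInt.toZMod (B x b) = κ b i := by
    intro i x b hx
    rw [hdot, hx, Finset.sum_eq_single i]
    · rw [Pi.single_eq_same, one_mul]
    · intro j _ hj
      rw [Pi.single_eq_of_ne hj, zero_mul]
    · intro h
      exact absurd (Finset.mem_univ i) h
  refine ⟨fun w hw => ?_, fun v hv w hw => ?_⟩
  · by_contra hw0
    obtain ⟨n, b, hwb, hb⟩ := Pool.Agent.Q45.OI.exists_prim hw0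
    have hab : ∀ a : End ℤ_[2] M, InSo B a → a b = 0 := by
      intro a ha
      have h1 := hw a ha
      rw [hwb, map_smul] at h1
      exact Pool.Agent.Q45.OI.smul_cancel (n := n) (by rw [h1, smul_zero])
    obtain ⟨i, hi⟩ := hprim b hb
    obtain ⟨j, hj⟩ : ∃ j, j ≠ i := by
      haveI : Nontrivial Ω := Fintype.one_lt_card_iff_nontrivial.1 (by omega)
      exact exists_ne i
    obtain ⟨x, hx⟩ := hsing i
    obtain ⟨y, hy⟩ := hsing j
    have h1 := hab _ (inSo_wed hs x y)
    rw [wed_apply, sub_eq_zero] at h1
    have h2 := congrFun (congrArg κ h1) j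
    rw [kap_smul hker, kap_smul hker, Pi.smul_apply, Pi.smul_apply, hB1 i x b hx, hi, hx, hy,
      Pi.single_eq_same, Pi.single_eq_of_ne hj, smul_zero, one_smul] at h2
    exact one_ne_zero h2
  · have hvv : PadicInt.toZMod (B v v) = 1 := by
      rw [hdot]
      simp only [hv, mul_one, Finset.sum_const, Finset.card_univ, nsmul_eq_mul]
      obtain ⟨k, hk⟩ := hodd
      rw [hk]
      push_cast
      have : (2 : ZMod 2) = 0 := rfl
      rw [this]
      ring
    have hu := isUnit_of_tz hvv
    set u := B v v with hudef
    by_cases hw' : u • w - B w v • v = 0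
    · obtain ⟨u', hu'⟩ := hu
      refine ⟨(↑u'⁻¹ : ℤ_[2]) * B w v, ?_⟩
      rw [sub_eq_zero] at hw'
      rw [mul_smul, ← hw', ← hu', smul_smul, Units.inv_mul, one_smul]
    · exfalso
      obtain ⟨n, b, hwb, hb⟩ := Pool.Agent.Q45.OI.exists_prim hw'
      have hab : ∀ a : End ℤ_[2] M, InSo B a → a v = 0 → a b = 0 := by
        intro a ha hav
        have h1 : a (u • w - B w v • v) = 0 := by
          rw [map_sub, map_smul, map_smul, hw a ha hav, hav, smul_zero, smul_zero, sub_zero]
        rw [hwb, map_smul] at h1
        exact Pool.Agent.Q45.OI.smul_cancel (n := n) (by rw [h1, smul_zero])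
      have hvb : B v b = 0 := by
        have h1 : B v (u • w - B w v • v) = 0 := by
          rw [map_sub, map_smul, map_smul, ← hudef, hs v w, smul_eq_mul, smul_eq_mul]
          ring
        rw [hwb, map_smul] at h1
        exact Pool.Agent.Q45.OI.smul_cancel (n := n) (by rw [h1, smul_zero])
      obtain ⟨i, hi⟩ := hprim b hb
      obtain ⟨j, hj⟩ : ∃ j, j ∉ ({i} : Finset Ω) := by
        by_contra hcon
        push Not at hcon
        have := Finset.card_le_card (fun x _ => hcon x : (Finset.univ : Finset Ω) ⊆ {i})
        rw [Finset.card_univ, Finset.card_singleton] at this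
        omega
      obtain ⟨k, hk⟩ : ∃ k, k ∉ ({i, j} : Finset Ω) := by
        by_contra hcon
        push Not at hcon
        have := Finset.card_le_card (fun x _ => hcon x : (Finset.univ : Finset Ω) ⊆ {i, j})
        have h2 := Finset.card_le_two (a := i) (b := j)
        rw [Finset.card_univ] at this
        omega
      obtain ⟨l, hl⟩ : ∃ l, l ∉ ({i, j, k} : Finset Ω) := by
        by_contra hcon
        push Not at hcon
        have := Finset.card_le_card (fun x _ => hcon x : (Finset.univ : Finset Ω) ⊆ {i, j, k})
        have h2 := Finset.card_le_three (a := i) (b := j) (c := k)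
        rw [Finset.card_univ] at this
        omega
      simp only [Finset.mem_insert, Finset.mem_singleton, not_or] at hj hk hl
      obtain ⟨x0, hx0⟩ := hsing i
      obtain ⟨y0, hy0⟩ := hsurj (Pi.single j 1 + Pi.single k 1)
      have hx0v : PadicInt.toZMod (B x0 v) = 1 := by rw [hB1 i x0 v hx0, hv]
      have hy0v : PadicInt.toZMod (B y0 v) = 0 := by
        rw [hdot, hy0]
        simp only [hv, mul_one, Pi.add_apply, Finset.sum_add_distrib, Finset.sum_pi_single',
          Finset.mem_univ, if_true]
        decide
      set x := u • x0 - B x0 v • v with hx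
      set y := u • y0 - B y0 v • v with hy
      have hxv : B x v = 0 := by
        rw [hx, map_sub, map_smul, map_smul, LinearMap.sub_apply, LinearMap.smul_apply,
          LinearMap.smul_apply, ← hudef, smul_eq_mul, smul_eq_mul]
        ring
      have hyv : B y v = 0 := by
        rw [hy, map_sub, map_smul, map_smul, LinearMap.sub_apply, LinearMap.smul_apply,
          LinearMap.smul_apply, ← hudef, smul_eq_mul, smul_eq_mul]
        ring
      have h1 := hab _ (inSo_wed hs x y) (by rw [wed_apply, hxv, hyv, zero_smul, zero_smul,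
        sub_zero])
      rw [wed_apply, sub_eq_zero] at h1
      have hκx : ∀ t, κ x t = (Pi.single i 1 : Ω → ZMod 2) t - 1 := by
        intro t
        rw [hx, map_sub, kap_smul hker, kap_smul hker, hvv, hx0v, hx0, one_smul, one_smul,
          Pi.sub_apply, hv]
      have hκy : ∀ t, κ y t = (Pi.single j 1 : Ω → ZMod 2) t + (Pi.single k 1 : Ω → ZMod 2) t := by
        intro t
        rw [hy, map_sub, kap_smul hker, kap_smul hker, hvv, hy0v, hy0, one_smul, zero_smul,
          sub_zero, Pi.add_apply]
      have hxb : PadicInt.toZMod (B x b) = 1 := by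
        rw [hx, map_sub, map_smul, map_smul, LinearMap.sub_apply, LinearMap.smul_apply,
          LinearMap.smul_apply, hvb, smul_zero, sub_zero, smul_eq_mul, map_mul, hvv, one_mul,
          hB1 i x0 b hx0, hi]
      have h2 : ∀ t, κ y t = PadicInt.toZMod (B y b) * κ x t := by
        intro t
        have := congrFun (congrArg κ h1) t
        rwa [kap_smul hker, kap_smul hker, Pi.smul_apply, Pi.smul_apply, hxb, one_smul,
          smul_eq_mul] at this
      have h3 := h2 j
      have h4 := h2 l
      rw [hκx, hκy, Pi.single_eq_same, Pi.single_eq_of_ne (Ne.symm hk.2), Pi.single_eq_of_ne hj]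
        at h3
      rw [hκx, hκy, Pi.single_eq_of_ne hl.2.1, Pi.single_eq_of_ne hl.2.2, Pi.single_eq_of_ne hl.1]
        at h4
      rw [← h4] at h3
      revert h3
      decide

end Q121.ND.Ann
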