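import Pool.Agent.Q45.ND.Stm
import Pool.Agent.Q45.OI.Alg2

/-!
# Project ND: common tools
-/

set_option autoImplicit false
set_option linter.all false

open Module

namespace Q121.ND

open Pool.Agent.Q45.OI (InSo)

theorem zmod2 (a : ZMod 2) : a = 0 ∨ a = 1 := by
  revert a
  decide

section

variable {Ω M : Type} [Fintype Ω] [AddCommGroup M] [Module ℤ_[2] M] {κ : M →+ (Ω → ZMod 2)}

theorem kap_smul (hk : ∀ m, κ m = 0 ↔ ∃ m', m = (2 : ℤ_[2]) • m') (c : ℤ_[2]) (m : M) :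
    κ (c • m) = PadicInt.toZMod c • κ m := by
  have h0 : ∀ b : ℤ_[2], κ ((2 * b) • m) = 0 := fun b => (hk _).2 ⟨b • m, by rw [mul_smul]⟩
  rcases zmod2 (PadicInt.toZMod c) with h | h
  · obtain ⟨b, hb⟩ := (Pool.Agent.Q45.OI.tz_zero_iff c).1 h
    rw [h, zero_smul, hb, h0]
  · have h1 : PadicInt.toZMod (c - 1) = 0 := by rw [map_sub, h, map_one, sub_self]
    obtain ⟨b, hb⟩ := (Pool.Agent.Q45.OI.tz_zero_iff _).1 h1
    have h2 : c = 1 + 2 * b := by rw [← hb]; ring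
    rw [h, one_smul, h2, add_smul, one_smul, map_add, h0, add_zero]

theorem isUnit_of_tz {c : ℤ_[2]} (h : PadicInt.toZMod c = 1) : IsUnit c := by
  by_contra hcon
  have h1 : c ∈ IsLocalRing.maximalIdeal ℤ_[2] := (IsLocalRing.mem_maximalIdeal c).2 hcon
  rw [← PadicInt.ker_toZMod, RingHom.mem_ker] at h1
  rw [h1] at h
  exact zero_ne_one h

/-- `m ↦ B x m • y - B y m • x` -/
noncomputable def wed (B : M →ₗ[ℤ_[2]] M →ₗ[ℤ_[2]] ℤ_[2]) (x y : M) : End ℤ_[2] M :=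
  (B x).smulRight y - (B y).smulRight x

theorem wed_apply (B : M →ₗ[ℤ_[2]] M →ₗ[ℤ_[2]] ℤ_[2]) (x y m : M) :
    wed B x y m = B x m • y - B y m • x := rfl

theorem inSo_wed {B : M →ₗ[ℤ_[2]] M →ₗ[ℤ_[2]] ℤ_[2]} (hs : ∀ x y, B x y = B y x) (x y : M) :
    InSo B (wed B x y) := by
  intro m n
  simp only [wed_apply, map_sub, map_smul, LinearMap.sub_apply, LinearMap.smul_apply, smul_eq_mul]
  rw [hs m x, hs m y]
  ring

end

end Q121.ND
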