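import Pool.Agent.Q121.ND.Basic

/-!
# Project ND: the skew endomorphisms which kill `v` are sums of commutators up to powers of two
-/

set_option autoImplicit false
set_option linter.all false

open Module

namespace Q121.ND.Perf

open Pool.Agent.Q45.OI (InSo)

/-- The elements with a multiple by a power of two in `S`. -/
def sat {N : Type} [AddCommGroup N] [Module ℤ_[2] N] (S : Submodule ℤ_[2] N) :
    Submodule ℤ_[2] N where
  carrier := {a | ∃ s : ℕ, (2 : ℤ_[2]) ^ s • a ∈ S}
  zero_mem' := ⟨0, by rw [smul_zero]; exact S.zero_mem⟩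
  add_mem' := by
    rintro a b ⟨s, hs⟩ ⟨t, ht⟩
    refine ⟨s + t, ?_⟩
    rw [smul_add]
    refine S.add_mem ?_ ?_
    · rw [add_comm, pow_add, mul_smul]
      exact S.smul_mem _ hs
    · rw [pow_add, mul_smul]
      exact S.smul_mem _ ht
  smul_mem' := by
    rintro c a ⟨s, hs⟩
    exact ⟨s, by rw [smul_comm]; exact S.smul_mem c hs⟩

theorem mem_sat {N : Type} [AddCommGroup N] [Module ℤ_[2] N] {S : Submodule ℤ_[2] N} {c : ℤ_[2]}
    (hc : c ≠ 0) {a : N} (h : c • a ∈ sat S) : a ∈ sat S := by
  obtain ⟨s, hs⟩ := h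
  obtain ⟨n, b, hcb, hb⟩ := Pool.Agent.Q45.OI.exists_prim hc
  have hb1 : PadicInt.toZMod b = 1 := by
    rcases zmod2 (PadicInt.toZMod b) with h0 | h1
    · obtain ⟨d, hd⟩ := (Pool.Agent.Q45.OI.tz_zero_iff b).1 h0
      exact absurd ⟨d, by rw [hd, smul_eq_mul]⟩ hb
    · exact h1
  obtain ⟨w, hw⟩ := isUnit_of_tz hb1
  refine ⟨s + n, ?_⟩
  have h1 : (2 : ℤ_[2]) ^ (s + n) • a = (↑w⁻¹ : ℤ_[2]) • ((2 : ℤ_[2]) ^ s • c • a) := by
    rw [hcb, ← hw, smul_smul, smul_smul, smul_eq_mul]
    congr 1
    calc (2 : ℤ_[2]) ^ (s + n) = (2 : ℤ_[2]) ^ (s + n) * ((↑w⁻¹ : ℤ_[2]) * w) := by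
          rw [Units.inv_mul, mul_one]
      _ = _ := by ring
  rw [h1]
  exact S.smul_mem _ hs

section

variable {Ω M : Type} [Fintype Ω] [AddCommGroup M] [Module ℤ_[2] M] {κ : M →+ (Ω → ZMod 2)}

/-- `wed` as a bilinear map -/
noncomputable def wedL (B : M →ₗ[ℤ_[2]] M →ₗ[ℤ_[2]] ℤ_[2]) : M →ₗ[ℤ_[2]] M →ₗ[ℤ_[2]] End ℤ_[2] M :=
  LinearMap.mk₂ ℤ_[2] (fun x y => wed B x y)
    (fun x x' y => by
      ext m
      simp only [wed_apply, LinearMap.add_apply, map_add, add_smul, smul_add]
      abel)
    (fun c x y => by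
      ext m
      simp only [wed_apply, LinearMap.smul_apply, map_smul, smul_sub, smul_smul, smul_eq_mul]
      rw [mul_comm (B y m) c])
    (fun x y y' => by
      ext m
      simp only [wed_apply, LinearMap.add_apply, map_add, add_smul, smul_add]
      abel)
    (fun c x y => by
      ext m
      simp only [wed_apply, LinearMap.smul_apply, map_smul, smul_sub, smul_smul, smul_eq_mul]
      rw [mul_comm (B x m) c])

theorem wedL_apply (B : M →ₗ[ℤ_[2]] M →ₗ[ℤ_[2]] ℤ_[2]) (x y : M) : wedL B x y = wed B x y := rfl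

theorem wed_comm {B : M →ₗ[ℤ_[2]] M →ₗ[ℤ_[2]] ℤ_[2]} (hs : ∀ x y, B x y = B y x) {x y z : M}
    (hx : B x z = 0) (hy : B y z = 0) :
    wed B z y * wed B x z - wed B x z * wed B z y = B z z • wed B x y := by
  have hx' : B z x = 0 := by rw [hs, hx]
  have hy' : B z y = 0 := by rw [hs, hy]
  ext m
  simp only [LinearMap.sub_apply, End.mul_apply, LinearMap.smul_apply, wed_apply, map_sub, map_smul,
    hx, hy, hx', hy', smul_zero, zero_smul, sub_zero, zero_sub, smul_sub, smul_neg, sub_neg_eq_add,
    smul_eq_mul, mul_zero, smul_smul]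
  rw [hs y x, mul_comm (B x m), mul_comm (B y m), mul_comm (B z m)]
  abel

end

theorem main (hD : Pool.Agent.Q45.ND.Dot) : Pool.Agent.Q45.ND.Perf := by
  classical
  intro Ω _ _ hodd h7 M _ _ _ _ κ hsurj hker H B hs hperf hinv hperm v hv _ a ha hav
  have hdot := hD Ω hodd (by omega) M κ hsurj hker H B hs hperf hinv hperm
  have h2z : (2 : ZMod 2) = 0 := rfl
  choose e he using fun i : Ω => hsurj (Pi.single i (1 : ZMod 2))
  have hB1 : ∀ (i : Ω) (x b : M), κ x = Pi.single i 1 → PadicInt.toZMod (B x b) = κ b i := by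
    intro i x b hx
    rw [hdot, hx, Finset.sum_eq_single i]
    · rw [Pi.single_eq_same, one_mul]
    · intro j _ hj
      rw [Pi.single_eq_of_ne hj, zero_mul]
    · intro h
      exact absurd (Finset.mem_univ i) h
  -- the vectors orthogonal to all `e i` are zero
  have hzero : ∀ m : M, (∀ i, B (e i) m = 0) → m = 0 := by
    intro m hm
    by_contra hne
    obtain ⟨n, b, hmb, hb⟩ := Pool.Agent.Q45.OI.exists_prim hne
    apply hb
    rw [← hker]
    ext i
    rw [← hB1 i (e i) b (he i)]
    have h1 := hm i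
    rw [hmb, map_smul, smul_eq_mul] at h1
    rw [(mul_eq_zero.1 h1).resolve_left (pow_ne_zero n Pool.Agent.Q45.OI.two_ne), map_zero]
    rfl
  -- the dual basis
  set G : Matrix Ω Ω ℤ_[2] := Matrix.of fun i j => B (e i) (e j) with hG
  have hGdet : IsUnit G.det := by
    apply isUnit_of_tz
    rw [RingHom.map_det]
    have : (PadicInt.toZMod (p := 2)).mapMatrix G = 1 := by
      ext i j
      rw [RingHom.mapMatrix_apply, Matrix.map_apply, hG, Matrix.of_apply, hB1 i _ _ (he i), he,
        Matrix.one_apply, Pi.single_apply]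
    rw [this, Matrix.det_one]
  set f : Ω → M := fun i => ∑ j, G⁻¹ i j • e j with hf
  have hGG : G * G⁻¹ = 1 := Matrix.mul_nonsing_inv G hGdet
  have hGG' : G⁻¹ * G = 1 := Matrix.nonsing_inv_mul G hGdet
  have hfe : ∀ i j, B (f i) (e j) = if i = j then 1 else 0 := by
    intro i j
    have h1 := congrFun (congrFun hGG' i) j
    rw [Matrix.mul_apply, Matrix.one_apply] at h1
    rw [← h1, hf]
    simp only [map_sum, map_smul, LinearMap.sum_apply, LinearMap.smul_apply, smul_eq_mul, hG,
      Matrix.of_apply]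
  have hfe' : ∀ i j, B (e j) (f i) = if i = j then 1 else 0 := fun i j => by rw [hs, hfe]
  have hexp2 : ∀ m, m = ∑ i, B (e i) m • f i := by
    intro m
    rw [← sub_eq_zero]
    apply hzero
    intro j
    rw [map_sub, map_sum]
    simp only [map_smul, hfe', smul_eq_mul, mul_ite, mul_one, mul_zero, Finset.sum_ite_eq',
      Finset.mem_univ, if_true, sub_self]
  have hexp1 : ∀ m, m = ∑ i, B (f i) m • e i := by
    intro m
    rw [← sub_eq_zero]
    apply hzero
    intro k
    have h1 : ∀ i, B (f i) m = ∑ j, G⁻¹ i j * B (e j) m := by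
      intro i
      rw [hf]
      simp only [map_sum, map_smul, LinearMap.sum_apply, LinearMap.smul_apply, smul_eq_mul]
    have h2 : ∑ i, B (f i) m * B (e k) (e i) = B (e k) m := by
      calc ∑ i, B (f i) m * B (e k) (e i) = ∑ i, ∑ j, (G k i * G⁻¹ i j) * B (e j) m := by
            refine Finset.sum_congr rfl fun i _ => ?_
            rw [h1, Finset.sum_mul]
            refine Finset.sum_congr rfl fun j _ => ?_
            rw [hG, Matrix.of_apply]
            ring
        _ = ∑ j, (G * G⁻¹) k j * B (e j) m := by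
            rw [Finset.sum_comm]
            refine Finset.sum_congr rfl fun j _ => ?_
            rw [Matrix.mul_apply, Finset.sum_mul]
        _ = _ := by
            rw [hGG]
            simp [Matrix.one_apply]
    rw [map_sub, map_sum]
    simp only [map_smul, smul_eq_mul]
    rw [h2, sub_self]
  have hκf : ∀ i, κ (f i) = Pi.single i 1 := by
    intro i
    ext j
    rw [← hB1 j (e j) (f i) (he j), hfe', Pi.single_apply]
    by_cases hij : i = j
    · rw [if_pos hij, if_pos hij.symm, map_one]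
    · rw [if_neg hij, if_neg (Ne.symm hij), map_zero]
  -- the vectors `z`
  have hz : ∀ i j : Ω, ∃ z, B z v = 0 ∧ B (e i) z = 0 ∧ B (e j) z = 0 ∧ B z z ≠ 0 := by
    intro i j
    have hex : ∀ s : Finset Ω, s.card ≤ 6 → ∃ t, t ∉ s := by
      intro s hs6
      by_contra hcon
      push Not at hcon
      have := Finset.card_le_card (fun x _ => hcon x : (Finset.univ : Finset Ω) ⊆ s)
      rw [Finset.card_univ] at this
      omega
    obtain ⟨k, hk⟩ := hex {i, j} (Finset.card_le_two.trans (by norm_num))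
    obtain ⟨l, hl⟩ := hex {i, j, k} (Finset.card_le_three.trans (by norm_num))
    obtain ⟨t, ht⟩ := hex {i, j, k, l} (Finset.card_le_four.trans (by norm_num))
    simp only [Finset.mem_insert, Finset.mem_singleton, not_or] at hk hl ht
    rcases hv with hv0 | hv1
    · refine ⟨f k, by rw [hv0, map_zero], by rw [hfe', if_neg hk.1], by rw [hfe', if_neg hk.2],
        fun h0 => ?_⟩
      have h1 := hB1 k (f k) (f k) (hκf k)
      rw [h0, map_zero, hκf, Pi.single_eq_same] at h1
      exact zero_ne_one h1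
    · have hfv : ∀ i, PadicInt.toZMod (B (f i) v) = 1 := fun i => by
        rw [hB1 i (f i) v (hκf i), hv1]
      set z := B (f l) v • f k - B (f k) v • f l with hzdef
      set z' := B (f t) v • f k - B (f k) v • f t with hz'def
      have hzv : B z v = 0 := by
        rw [hzdef, map_sub, map_smul, map_smul, LinearMap.sub_apply, LinearMap.smul_apply,
          LinearMap.smul_apply, smul_eq_mul, smul_eq_mul]
        ring
      have hz'v : B z' v = 0 := by
        rw [hz'def, map_sub, map_smul, map_smul, LinearMap.sub_apply, LinearMap.smul_apply,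
          LinearMap.smul_apply, smul_eq_mul, smul_eq_mul]
        ring
      have hze : ∀ r, r ≠ k → r ≠ l → B (e r) z = 0 := by
        intro r h1 h2
        rw [hzdef, map_sub, map_smul, map_smul, hfe', hfe', if_neg (Ne.symm h1),
          if_neg (Ne.symm h2), smul_zero, smul_zero, sub_zero]
      have hz'e : ∀ r, r ≠ k → r ≠ t → B (e r) z' = 0 := by
        intro r h1 h2
        rw [hz'def, map_sub, map_smul, map_smul, hfe', hfe', if_neg (Ne.symm h1),
          if_neg (Ne.symm h2), smul_zero, smul_zero, sub_zero]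
      have hκz' : ∀ r, κ z' r = (Pi.single k 1 : Ω → ZMod 2) r - (Pi.single t 1 : Ω → ZMod 2) r := by
        intro r
        rw [hz'def, map_sub, kap_smul hker, kap_smul hker, hfv, hfv, one_smul, one_smul, hκf, hκf,
          Pi.sub_apply]
      have hzz' : PadicInt.toZMod (B z z') = 1 := by
        have h0 : B z z' = B (f l) v * B (f k) z' - B (f k) v * B (f l) z' := by
          rw [hzdef, LinearMap.map_sub₂, LinearMap.map_smul₂, LinearMap.map_smul₂, smul_eq_mul,
            smul_eq_mul]
        rw [h0, map_sub, map_mul, map_mul, hfv, hfv,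
          hB1 k (f k) z' (hκf k), hB1 l (f l) z' (hκf l), hκz', hκz', Pi.single_eq_same,
          Pi.single_eq_of_ne (Ne.symm ht.2.2.1), Pi.single_eq_of_ne hl.2.2,
          Pi.single_eq_of_ne (Ne.symm ht.2.2.2)]
        decide
      by_cases h1 : B z z = 0
      · by_cases h2 : B z' z' = 0
        · refine ⟨z + z', by rw [map_add, LinearMap.add_apply, hzv, hz'v, add_zero],
            by rw [map_add, hze i (Ne.symm hk.1) (Ne.symm hl.1), hz'e i (Ne.symm hk.1)
              (Ne.symm ht.1), add_zero],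
            by rw [map_add, hze j (Ne.symm hk.2) (Ne.symm hl.2.1), hz'e j (Ne.symm hk.2)
              (Ne.symm ht.2.1), add_zero], ?_⟩
          have h3 : B (z + z') (z + z') = 2 * B z z' := by
            rw [map_add, map_add, LinearMap.add_apply, LinearMap.add_apply, h1, h2, hs z' z]
            ring
          rw [h3]
          refine mul_ne_zero Pool.Agent.Q45.OI.two_ne fun h4 => ?_
          rw [h4, map_zero] at hzz'
          exact zero_ne_one hzz'
        · exact ⟨z', hz'v, hz'e i (Ne.symm hk.1) (Ne.symm ht.1), hz'e j (Ne.symm hk.2)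
            (Ne.symm ht.2.1), h2⟩
      · exact ⟨z, hzv, hze i (Ne.symm hk.1) (Ne.symm hl.1), hze j (Ne.symm hk.2)
          (Ne.symm hl.2.1), h1⟩
  -- the projection
  obtain ⟨u, hu0, hu⟩ : ∃ u : ℤ_[2], u ≠ 0 ∧ ∀ x, u * B x v - B x v * B v v = 0 := by
    rcases hv with hv0 | hv1
    · exact ⟨1, one_ne_zero, fun x => by rw [hv0, map_zero, mul_zero, zero_mul, sub_zero]⟩
    · refine ⟨B v v, fun h0 => ?_, fun x => by ring⟩
      have h1 := hdot v v
      rw [h0, map_zero] at h1
      simp only [hv1, mul_one, Finset.sum_const, Finset.card_univ, nsmul_eq_mul] at h1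
      obtain ⟨k, hk⟩ := hodd
      rw [hk] at h1
      push_cast at h1
      rw [h2z, zero_mul, zero_add] at h1
      exact zero_ne_one h1
  set π : M →ₗ[ℤ_[2]] M := u • LinearMap.id - (B v).smulRight v with hπ
  have hπa : ∀ x, π x = u • x - B v x • v := fun x => rfl
  have hπv : ∀ x, B (π x) v = 0 := by
    intro x
    rw [hπa, map_sub, map_smul, map_smul, LinearMap.sub_apply, LinearMap.smul_apply,
      LinearMap.smul_apply, smul_eq_mul, smul_eq_mul, hs v x]
    exact hu x
  have hπs : ∀ x m, B (π x) m = B x (π m) := by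
    intro x m
    rw [hπa, hπa, LinearMap.map_sub₂, LinearMap.map_smul₂, LinearMap.map_smul₂, map_sub, map_smul,
      map_smul, smul_eq_mul, smul_eq_mul, smul_eq_mul, hs v x]
    ring
  set S : Submodule ℤ_[2] (End ℤ_[2] M) := Submodule.span ℤ_[2] {c : End ℤ_[2] M |
    ∃ x y : End ℤ_[2] M, InSo B x ∧ x v = 0 ∧ InSo B y ∧ y v = 0 ∧ c = x * y - y * x} with hS
  have hmem1 : ∀ i j, wedL B (π (e i)) (π (e j)) ∈ sat S := by
    intro i j
    obtain ⟨z, hzv, hzi, hzj, hzz⟩ := hz i j
    apply mem_sat hzz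
    refine ⟨0, ?_⟩
    rw [pow_zero, one_smul]
    have hpz : π z = u • z := by rw [hπa, hs, hzv, zero_smul, sub_zero]
    have h1 : B (π (e i)) z = 0 := by rw [hπs, hpz, map_smul, hzi, smul_zero]
    have h2 : B (π (e j)) z = 0 := by rw [hπs, hpz, map_smul, hzj, smul_zero]
    rw [wedL_apply, ← wed_comm hs h1 h2]
    refine Submodule.subset_span ⟨_, _, inSo_wed hs _ _, ?_, inSo_wed hs _ _, ?_, rfl⟩
    · rw [wed_apply, hzv, hπv, zero_smul, zero_smul, sub_zero]
    · rw [wed_apply, hzv, hπv, zero_smul, zero_smul, sub_zero]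
  have hmem2 : ∀ x y, wedL B (π x) (π y) ∈ sat S := by
    intro x y
    rw [hexp1 x, hexp1 y]
    simp only [map_sum, map_smul, LinearMap.sum_apply, LinearMap.smul_apply]
    exact Submodule.sum_mem _ fun i _ => Submodule.smul_mem _ _ (Submodule.sum_mem _ fun j _ =>
      Submodule.smul_mem _ _ (hmem1 _ _))
  have hsum : ∑ i, wedL B (π (f i)) (π (a (e i))) = (2 * u ^ 2 : ℤ_[2]) • a := by
    ext m
    have h1 : ∀ x, π (a (π x)) = (u ^ 2 : ℤ_[2]) • a x := by
      intro x
      have h2 : a (π x) = u • a x := by rw [hπa, map_sub, map_smul, map_smul, hav, smul_zero, sub_zero]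
      have h3 : B v (a x) = 0 := by
        have := ha v x
        rwa [hav, map_zero, LinearMap.zero_apply, zero_add] at this
      rw [h2, map_smul, hπa, h3, zero_smul, sub_zero, smul_smul, pow_two]
    have h2 : ∑ i, B (π (f i)) m • π (a (e i)) = (u ^ 2 : ℤ_[2]) • a m := by
      rw [← h1 m]
      conv_rhs => rw [hexp1 (π m)]
      simp only [map_sum, map_smul, hπs]
    have h3 : ∑ i, B (π (a (e i))) m • π (f i) = - ((u ^ 2 : ℤ_[2]) • a m) := by
      rw [← h1 m]
      conv_rhs => rw [hexp2 (a (π m))]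
      rw [map_sum, ← Finset.sum_neg_distrib]
      refine Finset.sum_congr rfl fun i _ => ?_
      have h4 := ha (e i) (π m)
      rw [hπs, map_smul, eq_neg_of_add_eq_zero_left h4, neg_smul]
    rw [LinearMap.sum_apply]
    simp only [wedL_apply, wed_apply, Finset.sum_sub_distrib]
    rw [h2, h3, sub_neg_eq_add, LinearMap.smul_apply, ← two_smul ℤ_[2], smul_smul]
  have hfin : a ∈ sat S := by
    apply mem_sat (c := 2 * u ^ 2) (mul_ne_zero Pool.Agent.Q45.OI.two_ne (pow_ne_zero 2 hu0))
    rw [← hsum]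
    exact Submodule.sum_mem _ fun i _ => hmem2 _ _
  exact hfin

end Q121.ND.Perf
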