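import Pool.Agent.Q121.ND.Basic

/-!
# Project ND: a Lie algebra which contains a lift of the complete graph kills a vector
-/

set_option autoImplicit false
set_option linter.all false

open Module

namespace Q121.ND.Sing

open Pool.Agent.Q45.OI (InSo)
open Pool.Agent.Q45.ND (Setup IsEv full)

section

variable {Ω M : Type} [Fintype Ω] [DecidableEq Ω] [AddCommGroup M] [Module ℤ_[2] M]
  {κ : M →+ (Ω → ZMod 2)}

theorem card_basis [Module.Free ℤ_[2] M] {ι : Type} [Fintype ι] (b : Basis ι ℤ_[2] M)
    (hsurj : Function.Surjective κ) (hker : ∀ m, κ m = 0 ↔ ∃ m', m = (2 : ℤ_[2]) • m') :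
    Fintype.card ι = Fintype.card Ω := by
  classical
  let κ' : M →+ (ι → ZMod 2) :=
    { toFun := fun m i => PadicInt.toZMod (b.repr m i)
      map_zero' := by ext i; simp
      map_add' := fun x y => by ext i; simp }
  have hsurj' : Function.Surjective κ' := by
    intro c
    have h1 : ∀ i, ∃ a : ℤ_[2], PadicInt.toZMod a = c i := by
      intro i
      rcases zmod2 (c i) with h | h
      · exact ⟨0, by rw [map_zero, h]⟩
      · exact ⟨1, by rw [map_one, h]⟩
    choose a ha using h1
    refine ⟨b.equivFun.symm a, ?_⟩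
    ext i
    change PadicInt.toZMod (b.equivFun (b.equivFun.symm a) i) = c i
    rw [LinearEquiv.apply_symm_apply, ha]
  have hk : κ.ker = κ'.ker := by
    ext m
    rw [AddMonoidHom.mem_ker, AddMonoidHom.mem_ker, hker]
    constructor
    · rintro ⟨m', rfl⟩
      ext i
      change PadicInt.toZMod (b.repr ((2 : ℤ_[2]) • m') i) = 0
      rw [map_smul, Finsupp.smul_apply, smul_eq_mul, Pool.Agent.Q45.OI.tz_two]
    · intro h
      have h1 : ∀ i, ∃ a, b.repr m i = 2 * a := fun i =>
        (Pool.Agent.Q45.OI.tz_zero_iff _).1 (congrFun h i)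
      choose a ha using h1
      refine ⟨b.equivFun.symm a, b.equivFun.injective ?_⟩
      ext i
      rw [map_smul, LinearEquiv.apply_symm_apply, Pi.smul_apply, smul_eq_mul, ← ha]
      rfl
  have e1 : κ.ker.index = Nat.card (Ω → ZMod 2) := by
    rw [AddSubgroup.index_ker, AddMonoidHom.range_eq_top.2 hsurj, AddSubgroup.card_top]
  have e2 : κ'.ker.index = Nat.card (ι → ZMod 2) := by
    rw [AddSubgroup.index_ker, AddMonoidHom.range_eq_top.2 hsurj', AddSubgroup.card_top]
  rw [hk, e2] at e1
  rw [Nat.card_eq_fintype_card, Nat.card_eq_fintype_card, Fintype.card_fun, Fintype.card_fun,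
    ZMod.card] at e1
  exact Nat.pow_right_injective le_rfl e1

variable {R : End ℤ_[2] M →+* Matrix Ω Ω (ZMod 2)} {B : M →ₗ[ℤ_[2]] M →ₗ[ℤ_[2]] ℤ_[2]}

theorem tz_dot (h : Setup κ R B) {i : Ω} {x : M} (hx : κ x = Pi.single i 1) (b : M) :
    PadicInt.toZMod (B x b) = κ b i := by
  rw [h.dot, hx, Finset.sum_eq_single i]
  · rw [Pi.single_eq_same, one_mul]
  · intro j _ hj
    rw [Pi.single_eq_of_ne hj, zero_mul]
  · intro h
    exact absurd (Finset.mem_univ i) h

theorem kap_single (h : Setup κ R B) (A : End ℤ_[2] M) {j : Ω} {x : M} (hx : κ x = Pi.single j 1)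
    (i : Ω) : κ (A x) i = R A i j := by
  rw [h.red, hx, Matrix.mulVec_single_one]
  rfl

theorem rsymm (h : Setup κ R B) {A : End ℤ_[2] M} (hA : InSo B A) (i j : Ω) :
    R A i j = R A j i := by
  obtain ⟨x, hx⟩ := h.surj (Pi.single j 1)
  obtain ⟨y, hy⟩ := h.surj (Pi.single i 1)
  have h1 := congrArg PadicInt.toZMod (hA x y)
  rw [map_add, map_zero, h.symm (A x) y, tz_dot h hy, tz_dot h hx, kap_single h A hx,
    kap_single h A hy] at h1
  have h2 : ∀ a b : ZMod 2, a + b = 0 → a = b := by decide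
  exact h2 _ _ h1

theorem nondeg [Module.Free ℤ_[2] M] [Module.Finite ℤ_[2] M] (h : Setup κ R B) {u : M}
    (hu : ∀ x, B x u = 0) : u = 0 := by
  by_contra hne
  obtain ⟨n, b, hub, hb⟩ := Pool.Agent.Q45.OI.exists_prim hne
  apply hb
  rw [← h.ker]
  ext i
  obtain ⟨x, hx⟩ := h.surj (Pi.single i 1)
  rw [← tz_dot h hx b]
  have h1 := hu x
  rw [hub, map_smul, smul_eq_mul] at h1
  rcases mul_eq_zero.1 h1 with h2 | h2
  · exact absurd h2 (pow_ne_zero n Pool.Agent.Q45.OI.two_ne)
  · rw [h2, map_zero]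
    rfl

theorem exists_ker [Module.Free ℤ_[2] M] [Module.Finite ℤ_[2] M] (h : Setup κ R B)
    (hodd : Odd (Fintype.card Ω)) {A : End ℤ_[2] M} (hA : InSo B A) : ∃ v : M, v ≠ 0 ∧ A v = 0 := by
  classical
  set b := Module.Free.chooseBasis ℤ_[2] M
  have hcard := card_basis b h.surj h.ker
  set G : Matrix _ _ ℤ_[2] := LinearMap.toMatrix₂ b b B with hG
  set A' := LinearMap.toMatrix b b A with hA'
  have hG0 : G.det ≠ 0 := by
    intro h0
    obtain ⟨u, hu0, hu⟩ := Matrix.exists_mulVec_eq_zero_iff.2 h0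
    apply hu0
    have h1 : b.equivFun.symm u = 0 := by
      apply nondeg h
      intro x
      have h2 := dotProduct_toMatrix₂_mulVec b b B (b.equivFun x) u
      have h3 : (RingHom.id ℤ_[2] : ℤ_[2] → ℤ_[2]) ∘ u = u := rfl
      rw [h3, ← hG, hu, dotProduct_zero, LinearEquiv.symm_apply_apply] at h2
      exact h2.symm
    have h3 := congrArg b.equivFun h1
    rwa [LinearEquiv.apply_symm_apply, map_zero] at h3
  have hrel : A'.transpose * G = - (G * A') := by
    rw [hA', hG, ← LinearMap.toMatrix₂_comp b b b B A, ← LinearMap.toMatrix₂_compl₂ b b b B A,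
      ← map_neg]
    congr 1
    ext x y
    have := hA x y
    simp only [LinearMap.comp_apply, LinearMap.neg_apply, LinearMap.compl₂_apply]
    linear_combination this
  have hdet : A'.det = 0 := by
    have h1 := congrArg Matrix.det hrel
    rw [Matrix.det_mul, Matrix.det_transpose, Matrix.det_neg, Matrix.det_mul, hcard,
      hodd.neg_one_pow] at h1
    have h2 : 2 * (A'.det * G.det) = 0 := by linear_combination h1
    rcases mul_eq_zero.1 h2 with h3 | h3
    · exact absurd h3 Pool.Agent.Q45.OI.two_ne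
    · exact (mul_eq_zero.1 h3).resolve_right hG0
  obtain ⟨u, hu0, hu⟩ := Matrix.exists_mulVec_eq_zero_iff.2 hdet
  refine ⟨b.equivFun.symm u, fun h0 => hu0 ?_, ?_⟩
  · have h3 := congrArg b.equivFun h0
    rwa [LinearEquiv.apply_symm_apply, map_zero] at h3
  · apply b.equivFun.injective
    rw [map_zero, ← hu]
    have := LinearMap.toMatrix_mulVec_repr b b A (b.equivFun.symm u)
    rw [← hA'] at this
    change (b.repr (A (b.equivFun.symm u)) : _ → ℤ_[2]) = _
    rw [← this]
    congr 1
    exact b.equivFun.apply_symm_apply u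

theorem full_apply (c : Ω → ZMod 2) (i : Ω) :
    (full Ω).mulVec c i = (∑ j, c j) + c i := by
  have h1 : ∀ j, full Ω i j * c j = c j + (if j = i then c j else 0) := by
    intro j
    rw [full, Matrix.of_apply]
    by_cases hij : i = j
    · rw [if_pos hij, if_pos hij.symm, zero_mul, CharTwo.add_self_eq_zero]
    · rw [if_neg hij, if_neg (Ne.symm hij), one_mul, add_zero]
  rw [Matrix.mulVec, dotProduct, Finset.sum_congr rfl (fun j _ => h1 j), Finset.sum_add_distrib,
    Finset.sum_ite_eq' Finset.univ i]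
  simp

theorem const_of_full {c : Ω → ZMod 2} (h : (full Ω).mulVec c = 0) : c = 0 ∨ ∀ i, c i = 1 := by
  have h1 : ∀ i, c i = ∑ j, c j := by
    intro i
    have := congrFun h i
    rw [full_apply, Pi.zero_apply] at this
    have h2 : ∀ a b : ZMod 2, a + b = 0 → b = a := by decide
    exact h2 _ _ this
  rcases zmod2 (∑ j, c j) with h2 | h2
  · left
    ext i
    rw [h1 i, h2]
    rfl
  · right
    intro i
    rw [h1 i, h2]

theorem comm_full {X : Matrix Ω Ω (ZMod 2)} (hs : ∀ i j, X i j = X j i) (he : IsEv X) :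
    full Ω * X - X * full Ω = 0 := by
  have hfs : ∀ i j, full Ω i j = full Ω j i := by
    intro i j
    rw [full, Matrix.of_apply, Matrix.of_apply]
    simp only [eq_comm]
  have h1 : ∀ i j, (full Ω * X) i j = X i j := by
    intro i j
    have := full_apply (fun k => X k j) i
    rw [Finset.sum_congr rfl (fun k _ => hs k j), he j, zero_add] at this
    exact this
  have h2 : ∀ i j, (X * full Ω) i j = X i j := by
    intro i j
    rw [Matrix.mul_apply, hs i j, ← h1 j i, Matrix.mul_apply]
    refine Finset.sum_congr rfl fun k _ => ?_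
    rw [hs i k, hfs k j, mul_comm]
  ext i j
  rw [Matrix.sub_apply, h1, h2, sub_self, Matrix.zero_apply]

end

theorem main : Pool.Agent.Q45.ND.Sing := by
  classical
  intro Ω _ _ hodd h3 M _ _ _ _ κ R B hS L hsat hskew hcomm hev A₀ hA₀ hRA₀
  obtain ⟨v', hv'0, hv'⟩ := exists_ker hS hodd (hskew A₀ hA₀)
  obtain ⟨n, v, hvv, hprim⟩ := Pool.Agent.Q45.OI.exists_prim hv'0
  have hv : A₀ v = 0 := by
    rw [hvv, map_smul] at hv'
    exact Pool.Agent.Q45.OI.smul_cancel (n := n) (by rw [hv', smul_zero])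
  have hκv : ∀ i, κ v i = 1 := by
    have h1 := hS.red A₀ v
    rw [hv, map_zero, hRA₀] at h1
    rcases const_of_full h1.symm with h2 | h2
    · exact absurd ((hS.ker v).1 h2) hprim
    · exact h2
  have hind : ∀ k : ℕ, ∀ A ∈ L, ∃ z, A v = (2 : ℤ_[2]) ^ k • z := by
    intro k
    induction k with
    | zero => exact fun A _ => ⟨A v, by simp⟩
    | succ k ih =>
      intro D hD
      obtain ⟨z, hz⟩ := ih D hD
      have h1 : R (A₀ * D - D * A₀) = 0 := by
        rw [map_sub, map_mul, map_mul, hRA₀]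
        exact comm_full (rsymm hS (hskew D hD)) (hev D hD)
      obtain ⟨D', hD'⟩ := (hS.rker _).1 h1
      have hD'L : D' ∈ L := hsat D' (by rw [← hD']; exact hcomm A₀ hA₀ D hD)
      obtain ⟨z', hz'⟩ := ih D' hD'L
      have h2 : (2 : ℤ_[2]) ^ k • A₀ z = (2 : ℤ_[2]) ^ k • ((2 : ℤ_[2]) • z') := by
        have h4 := LinearMap.congr_fun hD' v
        rw [LinearMap.sub_apply, End.mul_apply, End.mul_apply, hv, map_zero, sub_zero, hz, map_smul,
          LinearMap.smul_apply, hz', smul_comm] at h4
        exact h4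
      have h4 : A₀ z = (2 : ℤ_[2]) • z' := Pool.Agent.Q45.OI.smul_cancel h2
      have h5 : (full Ω).mulVec (κ z) = 0 := by
        rw [← hRA₀, ← hS.red, h4, hS.ker]
        exact ⟨z', rfl⟩
      have h6 : B z v = 0 := by
        have h7 := hskew D hD v v
        rw [hS.symm v (D v), hz, map_smul, LinearMap.smul_apply, smul_eq_mul, ← two_mul] at h7
        rcases mul_eq_zero.1 h7 with h8 | h8
        · exact absurd h8 Pool.Agent.Q45.OI.two_ne
        · exact (mul_eq_zero.1 h8).resolve_left (pow_ne_zero k Pool.Agent.Q45.OI.two_ne)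
      have h7 : ∑ i, κ z i = 0 := by
        have := hS.dot z v
        rw [h6, map_zero] at this
        simp only [hκv, mul_one] at this
        exact this.symm
      rcases const_of_full h5 with h8 | h8
      · obtain ⟨z'', hz''⟩ := (hS.ker z).1 h8
        exact ⟨z'', by rw [hz, hz'', pow_succ, mul_smul]⟩
      · exfalso
        simp only [h8, Finset.sum_const, Finset.card_univ, nsmul_eq_mul, mul_one] at h7
        obtain ⟨t, ht⟩ := hodd
        rw [ht] at h7
        push_cast at h7
        have h9 : (2 : ZMod 2) = 0 := rfl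
        rw [h9, zero_mul, zero_add] at h7
        exact one_ne_zero h7
  exact ⟨v, hκv, fun A hA => Pool.Agent.Q45.OI.zero_of_div fun k => hind k A hA⟩

end Q121.ND.Sing
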